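import Pool.Agent.H83.VU.Targets

/-!
# Orthogonality
-/

set_option autoImplicit false

open Finset Pool.Agent.H83.VU

namespace Pool.Agent.H91.VU

theorem e_nat_mul (n : ℕ) (x : ℝ) : e (n * x) = e x ^ n := by
  unfold e
  rw [← Complex.exp_nat_mul]
  congr 1
  push_cast
  ring

theorem inner_sum (M : ℕ) (hM : 0 < M) (h : ℤ) (hh : |h| < (M : ℤ)) :
    ∑ a ∈ range M, e ((a : ℝ) * (h : ℝ) / M) = if h = 0 then (M : ℂ) else 0 := by
  have hM' : (M : ℝ) ≠ 0 := by exact_mod_cast hM.ne'
  split_ifs with h0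
  · subst h0
    simp [e_zero]
  · have h1 : ∀ a ∈ range M, e ((a : ℝ) * (h : ℝ) / M) = e ((h : ℝ) / M) ^ a := by
      intro a _
      rw [← e_nat_mul, mul_div_assoc]
    rw [Finset.sum_congr rfl h1]
    have hz : e ((h : ℝ) / M) ≠ 1 := by
      intro hz
      unfold e at hz
      rw [Complex.exp_eq_one_iff] at hz
      obtain ⟨n, hn⟩ := hz
      have h2 : ((2 * Real.pi * ((h : ℝ) / M) : ℝ) : ℂ) = ((n * (2 * Real.pi) : ℝ) : ℂ) := by
        have h3 : ((2 * Real.pi * ((h : ℝ) / M) : ℝ) : ℂ) * Complex.I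
            = ((n * (2 * Real.pi) : ℝ) : ℂ) * Complex.I := by
          rw [hn]
          push_cast
          ring
        exact mul_right_cancel₀ Complex.I_ne_zero h3
      have h4 : 2 * Real.pi * ((h : ℝ) / M) = n * (2 * Real.pi) := by exact_mod_cast h2
      have h5 : (h : ℝ) / M = n := by
        have hpi := Real.pi_pos
        have : (2 * Real.pi) * ((h : ℝ) / M) = (2 * Real.pi) * n := by rw [h4]; ring
        exact mul_left_cancel₀ (by positivity) this
      have h6 : (h : ℝ) = n * M := by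
        rw [div_eq_iff hM'] at h5
        exact h5
      have h7 : h = n * M := by exact_mod_cast h6
      rcases eq_or_ne n 0 with hn0 | hn0
      · rw [hn0, zero_mul] at h7
        exact h0 h7
      · have h8 : 1 ≤ |n| := Int.one_le_abs hn0
        have h9 : |h| = |n| * M := by
          rw [h7, abs_mul, Nat.abs_cast]
        have h10 : (M : ℤ) ≤ |n| * M := by
          have : (0 : ℤ) ≤ M := by positivity
          nlinarith
        omega
    rw [geom_sum_eq hz]
    have h11 : e ((h : ℝ) / M) ^ M = 1 := by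
      rw [← e_nat_mul, mul_div_cancel₀ _ hM']
      exact e_int h
    rw [h11, sub_self, zero_div]

theorem pf_ORT : T_ORT := by
  intro k M h hM hh
  have h1 : ∀ α ∈ Fintype.piFinset (fun _ : Fin k => range M),
      e ((∑ j, (α j : ℝ) * (h j : ℝ)) / M) = ∏ j, e ((α j : ℝ) * (h j : ℝ) / M) := by
    intro α _
    rw [Finset.sum_div, e_sum]
  rw [Finset.sum_congr rfl h1,
    ← Finset.prod_univ_sum (fun _ : Fin k => range M) fun j a => e ((a : ℝ) * (h j : ℝ) / M)]
  have h2 : ∀ j ∈ (univ : Finset (Fin k)), ∑ a ∈ range M, e ((a : ℝ) * (h j : ℝ) / M)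
      = if h j = 0 then (M : ℂ) else 0 := fun j _ => inner_sum M hM (h j) (hh j)
  rw [Finset.prod_congr rfl h2]
  split_ifs with h0
  · subst h0
    simp
  · obtain ⟨j, hj⟩ : ∃ j, h j ≠ 0 := by
      by_contra hcon
      push Not at hcon
      exact h0 (funext hcon)
    refine Finset.prod_eq_zero (mem_univ j) ?_
    rw [if_neg hj]

end Pool.Agent.H91.VU
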