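import Pool.Agent.H83.VU.Targets

/-!
# Power sums and polynomials
-/

set_option autoImplicit false

open Finset Polynomial Pool.Agent.H83.VU

namespace Pool.Agent.H91.VU

theorem sum_eval (k : ℕ) {r : ℕ} (x : Fin r → ℤ) (P : ℤ[X]) (hP : P.natDegree ≤ k) :
    ∑ i, P.eval (x i) = ∑ j ∈ range (k + 1), P.coeff j * ∑ i, x i ^ j := by
  simp only [Polynomial.eval_eq_sum_range' (Nat.lt_succ_of_le hP)]
  rw [Finset.sum_comm]
  apply Finset.sum_congr rfl
  intro j _
  rw [Finset.mul_sum]

theorem pf_POL : T_POL := by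
  intro k r s x y u v h P hP
  have h1 : ∀ j : ℕ, j ≤ k →
      ∑ i, x i ^ j + ∑ i, u i ^ j = ∑ i, y i ^ j + ∑ i, v i ^ j := by
    intro j hj2
    rcases Nat.eq_zero_or_pos j with hj | hj
    · subst hj
      simp
    · have h2 := congrFun h ⟨j - 1, by omega⟩
      simp only [Pi.add_apply, ps] at h2
      have h3 : j - 1 + 1 = j := by omega
      rw [h3] at h2
      exact h2
  rw [sum_eval k x P hP, sum_eval k u P hP, sum_eval k y P hP, sum_eval k v P hP,
    ← Finset.sum_add_distrib, ← Finset.sum_add_distrib]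
  apply Finset.sum_congr rfl
  intro j hj
  rw [← mul_add, ← mul_add, h1 j (by rw [Finset.mem_range] at hj; omega)]

end Pool.Agent.H91.VU
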