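import Pool.Agent.H83.VU.Targets

/-!
# Invariance under translations and dilations
-/

set_option autoImplicit false

open Finset Polynomial Pool.Agent.H83.VU

namespace Pool.Agent.H91.VU

theorem pf_TRI (hPOL : T_POL) : T_TRI := by
  intro k s u v a c hc
  have key : ∀ u' v' : Fin s → ℤ, ps k u' = ps k v' → ∀ P : ℤ[X], P.natDegree ≤ k →
      ∑ i, P.eval (u' i) = ∑ i, P.eval (v' i) := by
    intro u' v' h P hP
    have h1 := hPOL k 0 s (fun i => i.elim0) (fun i => i.elim0) u' v' (by rw [h]) P hP
    simpa using h1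
  constructor
  · intro h
    funext j
    have hd : ((X - C a : ℤ[X]) ^ ((j : ℕ) + 1)).natDegree ≤ k := by
      rw [natDegree_pow, natDegree_X_sub_C]
      have := j.isLt
      omega
    have h1 := key _ _ h _ hd
    simp only [eval_pow, eval_sub, eval_X, eval_C, add_sub_cancel_right, mul_pow] at h1
    rw [← Finset.mul_sum, ← Finset.mul_sum] at h1
    exact mul_left_cancel₀ (pow_ne_zero _ hc) h1
  · intro h
    funext j
    have hd : ((C c * X + C a : ℤ[X]) ^ ((j : ℕ) + 1)).natDegree ≤ k := by
      rw [natDegree_pow]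
      have h2 := natDegree_linear_le (a := c) (b := a)
      have := j.isLt
      calc ((j : ℕ) + 1) * (C c * X + C a : ℤ[X]).natDegree ≤ ((j : ℕ) + 1) * 1 :=
            Nat.mul_le_mul_left _ h2
        _ ≤ k := by omega
    have h1 := key _ _ h _ hd
    simp only [eval_pow, eval_add, eval_mul, eval_X, eval_C] at h1
    exact h1

end Pool.Agent.H91.VU
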