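import Pool.Agent.H83.VU.Targets

/-!
# Solutions in one residue class
-/

set_option autoImplicit false

open Finset Pool.Agent.H83.VU

namespace Pool.Agent.H91.VU

theorem pf_RES (hTRI : T_TRI) : T_RES := by
  intro k s N p a hp
  obtain ⟨c, hc1, hc2, hc3⟩ : ∃ c : ℤ, 1 ≤ c ∧ c ≤ p ∧ (p : ℤ) ∣ (a : ℤ) - c := by
    have hp' : (0 : ℤ) < p := by exact_mod_cast hp
    refine ⟨((a : ℤ) - 1) % p + 1, ?_, ?_, ?_⟩
    · have := Int.emod_nonneg ((a : ℤ) - 1) hp'.ne'
      omega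
    · have := Int.emod_lt_of_pos ((a : ℤ) - 1) hp'
      omega
    · have h1 : (a : ℤ) - (((a : ℤ) - 1) % p + 1) = ((a : ℤ) - 1) - ((a : ℤ) - 1) % p := by ring
      rw [h1]
      exact Int.dvd_self_sub_emod
  have hp' : (0 : ℤ) < p := by exact_mod_cast hp
  have key : ∀ n : ℤ, (p : ℤ) ∣ n - a → (p : ℤ) * ((n - c) / p + 1) + (c - p) = n := by
    intro n hn
    have h1 : (p : ℤ) ∣ n - c := by
      have h2 : n - c = (n - a) + (a - c) := by ring
      rw [h2]
      exact dvd_add hn hc3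
    have h3 := Int.mul_ediv_cancel' h1
    linarith
  have hmem : ∀ n : ℤ, n ∈ (Icc 1 (N : ℤ)).filter (fun n => (p : ℤ) ∣ n - a) →
      (n - c) / p + 1 ∈ Icc 1 (((N / p + 1 : ℕ) : ℤ)) := by
    intro n hn
    rw [mem_filter, mem_Icc] at hn
    obtain ⟨⟨hn1, hn2⟩, hn3⟩ := hn
    have h1 := key n hn3
    have h4 : 0 ≤ (n - c) / p := by
      by_contra hneg
      push Not at hneg
      have h5 : (n - c) / p + 1 ≤ 0 := by omega
      have h6 : (p : ℤ) * ((n - c) / p + 1) ≤ 0 :=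
        mul_nonpos_of_nonneg_of_nonpos hp'.le h5
      omega
    rw [mem_Icc]
    refine ⟨by omega, ?_⟩
    have h7 : (n - c) / p ≤ (N : ℤ) / p := Int.ediv_le_ediv hp' (by omega)
    push_cast
    omega
  unfold J rr
  refine Finset.card_le_card_of_injOn
    (fun q => (fun i => (q.1 i - c) / p + 1, fun i => (q.2 i - c) / p + 1)) ?_ ?_
  · intro q hq
    rw [mem_coe, mem_filter, mem_product, mem_vec, mem_vec] at hq
    obtain ⟨⟨h1, h2⟩, h3⟩ := hq
    rw [mem_coe, mem_filter, mem_product, mem_vec, mem_vec]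
    refine ⟨⟨fun i => hmem _ (h1 i), fun i => hmem _ (h2 i)⟩, ?_⟩
    rw [sub_eq_zero] at h3 ⊢
    refine (hTRI k s _ _ (c - p) p hp'.ne').mp ?_
    have e1 : (fun i => (p : ℤ) * ((q.1 i - c) / p + 1) + (c - p)) = q.1 := by
      funext i
      exact key _ (mem_filter.mp (h1 i)).2
    have e2 : (fun i => (p : ℤ) * ((q.2 i - c) / p + 1) + (c - p)) = q.2 := by
      funext i
      exact key _ (mem_filter.mp (h2 i)).2
    rw [e1, e2]
    exact h3
  · intro q hq q' hq' heq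
    rw [mem_coe, mem_filter, mem_product, mem_vec, mem_vec] at hq hq'
    obtain ⟨⟨h1, h2⟩, -⟩ := hq
    obtain ⟨⟨h1', h2'⟩, -⟩ := hq'
    rw [Prod.mk.injEq] at heq
    refine Prod.ext ?_ ?_
    · funext i
      have h5 := congrFun heq.1 i
      rw [← key _ (mem_filter.mp (h1 i)).2, ← key _ (mem_filter.mp (h1' i)).2, h5]
    · funext i
      have h5 := congrFun heq.2 i
      rw [← key _ (mem_filter.mp (h2 i)).2, ← key _ (mem_filter.mp (h2' i)).2, h5]

end Pool.Agent.H91.VU
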